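import Pool.Agent.Results.MP_12a1af_nt.AffineSystems
import Pool.Agent.Results.MP_d5a1e1_nt.SetComputations

/-!
# MP_d5a1e1_nt: sets given by finite systems of affine equations, sums of `h` elements

`reps A h n` is the set of the unordered representations of `n` as a sum of `h` elements of `A`
(multisets of `h` elements of `A` with sum `n`), so that `r_{A,h}(n)` is its cardinality.

`IsSolution E F A`: the sets `A i` (`i` in a finite set) satisfy
`A i = F i ∪ ⋃ (q A_j + d)`, the union over all edges `(i, j, q, d)` in the finite set `E`, with finite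
sets `F i`; the multipliers `q ≥ 2` may all be different.

1. Either `A i` has at most `C (log (N + 2)) ^ k` elements up to `N` for all `N`, or there is `c > 0`
   such that for every `B ⊇ A i` and every `h ≥ 2`, `r_{B,h}(n) ≥ n ^ (c h)` for infinitely many `n`.
2. If the union `U` of some of the `A i` has at least `N ^ ε` elements up to `N` for arbitrarily large
   `N`, there is such a `c` for all `B ⊇ U` and all `h ≥ 2`.
3. If `B ⊇ U` is an asymptotic basis of some order `k` and `B \ U` has at most `N ^ (1/k - ε)` elements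
   up to `N` for arbitrarily large `N`, there is `c > 0` with `r_{B,h}(n) ≥ n ^ (c h)` infinitely
   often, for every `h ≥ 2`.

Method: the walks of the starting file `MP_12a1af_nt/AffineSystems` give symmetric subsets of `A i` with
`2 ^ m` elements of size `O(Q ^ m)`; sums of `⌊h / 2⌋` complementary pairs of such a set (and one fixed
element, if `h` is odd) give the representations.
-/

set_option autoImplicit false

namespace Pool.Agent.Results.MP_d5a1e1_nt.AffineSystems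

open Pool.Agent.Results.MP_12a1af_nt.AffineSystems
  (IsSolution W dig dig_symm card_dig top top_lt base base_le card_walks descent)
open Pool.Agent.Results.MP_d5a1e1_nt.SetComputations
  (reps reps_finite reps_of_symmetric count_pow)

/-- `r_{B,h}(n) ≥ n ^ (c h)` for infinitely many `n`. -/
def Large (B : Set ℕ) (c : ℝ) (h : ℕ) : Prop :=
  ∀ N₀ : ℕ, ∃ n : ℕ, N₀ ≤ n ∧ (n : ℝ) ^ (c * h) ≤ ((reps B h n).ncard : ℝ)

/-- two different maps with the same multiplier -/
lemma power_growth {S T : Set ℕ} {Q : ℕ} {D D' : ℤ} (hQ : 2 ≤ Q) (hD : D ≠ D')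
    (h1 : ∀ y ∈ S, ∃ x ∈ S, (x : ℤ) = Q * y + D) (h2 : ∀ y ∈ S, ∃ x ∈ S, (x : ℤ) = Q * y + D')
    {a : ℕ} (ha : a ∈ S) {P : ℕ} {G : ℤ} (hP : 1 ≤ P)
    (h3 : ∀ y ∈ S, ∃ x ∈ T, (x : ℤ) = P * y + G) :
    ∃ c : ℝ, 0 < c ∧ ∀ B : Set ℕ, T ⊆ B → ∀ h : ℕ, 2 ≤ h → Large B c h := by
  classical
  have hQR : (1 : ℝ) < Q := by exact_mod_cast (by omega : 1 < Q)
  have hlogQ : 0 < Real.log Q := Real.log_pos hQR
  have hlog2 : 0 < Real.log 2 := Real.log_pos (by norm_num)
  have hδ : D' - D ≠ 0 := sub_ne_zero.2 (Ne.symm hD)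
  -- the points
  have pts : ∀ m : ℕ, ∀ s ∈ dig Q m, ∃ x ∈ S, (x : ℤ) = base Q D a m + s * (D' - D) := by
    intro m
    induction m with
    | zero =>
      intro s hs
      simp only [dig, Finset.mem_singleton] at hs
      subst hs
      exact ⟨a, ha, by simp [base]⟩
    | succ m ih =>
      intro s hs
      rw [dig, Finset.mem_union, Finset.mem_image, Finset.mem_image] at hs
      rcases hs with ⟨t, ht, rfl⟩ | ⟨t, ht, rfl⟩
      · obtain ⟨y, hy, hyt⟩ := ih t ht
        obtain ⟨x, hx, hxy⟩ := h1 y hy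
        refine ⟨x, hx, ?_⟩
        rw [hxy, hyt, base]; push_cast; ring
      · obtain ⟨y, hy, hyt⟩ := ih t ht
        obtain ⟨x, hx, hxy⟩ := h2 y hy
        refine ⟨x, hx, ?_⟩
        rw [hxy, hyt, base]; push_cast; ring
  obtain ⟨K, hK⟩ : ∃ K : ℕ, (K : ℤ) = 2 * P * (|(a : ℤ)| + |D|) + P * |D' - D| + 2 * |G| + 1 :=
    ⟨(2 * P * (|(a : ℤ)| + |D|) + P * |D' - D| + 2 * |G| + 1).toNat,
      Int.toNat_of_nonneg (by positivity)⟩
  have hK1 : 1 ≤ K := by
    have : (1 : ℤ) ≤ K := by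
      rw [hK]
      have : (0 : ℤ) ≤ 2 * P * (|(a : ℤ)| + |D|) + P * |D' - D| + 2 * |G| := by positivity
      linarith
    exact_mod_cast this
  -- symmetric sets
  have step : ∀ m : ℕ, ∃ (X : Finset ℕ) (M : ℕ), X.card = 2 ^ m ∧
      (∀ x ∈ X, x ∈ T ∧ x ≤ K * Q ^ m) ∧ ∀ x ∈ X, x ≤ M ∧ M - x ∈ X := by
    intro m
    set f : ℕ → ℤ := fun s : ℕ => (P : ℤ) * (base Q D a m + s * (D' - D)) + G with hf
    set M : ℤ := P * (2 * base Q D a m + top Q m * (D' - D)) + 2 * G with hM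
    have hinj : Function.Injective f := by
      intro s t hst
      simp only [hf] at hst
      have hP0 : (P : ℤ) ≠ 0 := by exact_mod_cast (by omega : P ≠ 0)
      have e1 : (P : ℤ) * (base Q D a m + s * (D' - D)) = P * (base Q D a m + t * (D' - D)) := by
        linarith
      have e2 := mul_left_cancel₀ hP0 e1
      have e3 : (s : ℤ) * (D' - D) = t * (D' - D) := by linarith
      exact_mod_cast mul_right_cancel₀ hδ e3
    have hmem : ∀ s ∈ dig Q m, (f s).toNat ∈ T ∧ (((f s).toNat : ℕ) : ℤ) = f s := by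
      intro s hs
      obtain ⟨y, hy, hys⟩ := pts m s hs
      obtain ⟨x, hx, hxy⟩ := h3 y hy
      have e : (x : ℤ) = f s := by rw [hxy, hys]
      have e' : (f s).toNat = x := by omega
      exact ⟨by rw [e']; exact hx, by rw [e']; exact e⟩
    have hsym : ∀ s ∈ dig Q m, top Q m - s ∈ dig Q m ∧ f (top Q m - s) = M - f s := by
      intro s hs
      obtain ⟨h4, h5⟩ := dig_symm m s hs
      refine ⟨h5, ?_⟩
      simp only [hf, hM]
      push_cast [h4]
      ring
    have hMK : M ≤ K * Q ^ m := by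
      rw [hM, hK]
      have e1 := base_le hQ D a m
      have e2 : (top Q m : ℤ) ≤ Q ^ m := by exact_mod_cast (top_lt hQ m).le
      have e3 : (1 : ℤ) ≤ (Q : ℤ) ^ m := by exact_mod_cast Nat.one_le_pow m Q (by omega)
      have e4 := le_abs_self (D' - D)
      have e5 := le_abs_self G
      have e6 : (0 : ℤ) ≤ |D| := abs_nonneg D
      have e7 : (0 : ℤ) ≤ |D' - D| := abs_nonneg _
      have e8 : (0 : ℤ) ≤ |G| := abs_nonneg G
      have e9 : (0 : ℤ) ≤ P := Nat.cast_nonneg P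
      have f1 : (P : ℤ) * (2 * base Q D a m) ≤ 2 * P * (|(a : ℤ)| + |D|) * Q ^ m := by
        have := mul_le_mul_of_nonneg_left (by linarith :
          base Q D a m ≤ Q ^ m * (|(a : ℤ)| + |D|)) (by positivity : (0 : ℤ) ≤ 2 * P)
        calc _ = 2 * (P : ℤ) * base Q D a m := by ring
          _ ≤ _ := this
          _ = _ := by ring
      have f2 : (P : ℤ) * (top Q m * (D' - D)) ≤ P * |D' - D| * Q ^ m := by
        have g1 : (top Q m : ℤ) * (D' - D) ≤ Q ^ m * |D' - D| :=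
          (mul_le_mul_of_nonneg_left e4 (Nat.cast_nonneg _)).trans
            (mul_le_mul_of_nonneg_right e2 e7)
        calc _ ≤ (P : ℤ) * (Q ^ m * |D' - D|) := mul_le_mul_of_nonneg_left g1 e9
          _ = _ := by ring
      have f3 : 2 * G ≤ 2 * |G| * Q ^ m := by nlinarith
      nlinarith
    have hle : ∀ s ∈ dig Q m, f s ≤ M := by
      intro s hs
      obtain ⟨h4, h5⟩ := hsym s hs
      have h6 := (hmem _ h4).2
      omega
    refine ⟨(dig Q m).image (fun s => (f s).toNat), M.toNat, ?_, ?_, ?_⟩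
    · rw [Finset.card_image_of_injOn, card_dig hQ]
      intro s hs t ht hst
      have e1 := (hmem s hs).2
      have e2 := (hmem t ht).2
      simp only at hst
      apply hinj
      rw [← e1, ← e2, hst]
    · intro x hx
      rw [Finset.mem_image] at hx
      obtain ⟨s, hs, rfl⟩ := hx
      refine ⟨(hmem s hs).1, ?_⟩
      have h4 := hle s hs
      have h5 := (hmem s hs).2
      have h6 : (((f s).toNat : ℕ) : ℤ) ≤ K * Q ^ m := by rw [h5]; exact h4.trans hMK
      exact_mod_cast h6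
    · intro x hx
      rw [Finset.mem_image] at hx
      obtain ⟨s, hs, rfl⟩ := hx
      have h4 := hle s hs
      have h5 := (hmem s hs).2
      obtain ⟨h6, h7⟩ := hsym s hs
      have h8 := (hmem _ h6).2
      refine ⟨by omega, Finset.mem_image.2 ⟨top Q m - s, h6, ?_⟩⟩
      rw [h7]
      rw [h7] at h8
      omega
  set c : ℝ := Real.log 2 / (6 * Real.log Q) with hc
  have hc0 : 0 < c := by positivity
  refine ⟨c, hc0, fun B hTB h hh N₀ => ?_⟩
  set k := h / 2 with hk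
  have hk1 : 1 ≤ k := by omega
  have hk3 : h ≤ 3 * k := by omega
  -- the representations
  have key : ∀ m : ℕ, ∃ n : ℕ, n ≤ h * (K * Q ^ (m + 1)) ∧
      2 ^ (m * k) ≤ k.factorial * (reps B h n).ncard := by
    intro m
    obtain ⟨X, M, hX1, hX2, hX3⟩ := step (m + 1)
    have h4 : 1 ≤ 2 ^ m := Nat.one_le_two_pow
    obtain ⟨n, hn, hle⟩ := reps_of_symmetric (A := B) (h := h) (L := K * Q ^ (m + 1)) (X := X)
      (M := M) (u := 2 ^ m - 1) (fun x hx => ⟨hTB (hX2 x hx).1, (hX2 x hx).2⟩) hX3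
      (by rw [hX1, pow_succ]; omega)
    refine ⟨n, hn, ?_⟩
    have h5 : (2 ^ m - 1 + 1) ^ k ≤ (2 ^ m - 1 + 1).ascFactorial k :=
      Nat.pow_succ_le_ascFactorial _ _
    rw [Nat.ascFactorial_eq_factorial_mul_choose, Nat.sub_add_cancel h4, ← pow_mul] at h5
    exact h5.trans (Nat.mul_le_mul_left _ hle)
  have hKR : (1 : ℝ) ≤ K := by exact_mod_cast hK1
  have hkf : (1 : ℝ) ≤ k.factorial := by exact_mod_cast Nat.factorial_pos k
  set R₀ : ℕ := ∑ n ∈ Finset.range N₀, (reps B h n).ncard + 1 with hR₀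
  -- choose `m`
  have ht : Filter.Tendsto (fun m : ℕ => (m : ℝ) * (Real.log 2 / 2)) Filter.atTop Filter.atTop :=
    tendsto_natCast_atTop_atTop.atTop_mul_const (by positivity)
  obtain ⟨m₁, hm₁⟩ := Filter.eventually_atTop.1 (ht.eventually_ge_atTop
    (c * h * (Real.log h + Real.log K + Real.log Q) + Real.log k.factorial))
  set m := max m₁ (k.factorial * R₀) with hm
  obtain ⟨n, hn1, hn2⟩ := key m
  have hnN : N₀ ≤ n := by
    by_contra hlt
    rw [not_le] at hlt
    have e1 : (reps B h n).ncard ≤ ∑ n ∈ Finset.range N₀, (reps B h n).ncard :=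
      Finset.single_le_sum (f := fun n => (reps B h n).ncard) (fun _ _ => Nat.zero_le _)
        (Finset.mem_range.2 hlt)
    have e2 : m < 2 ^ m := Nat.lt_two_pow_self
    have e3 : 2 ^ m ≤ 2 ^ (m * k) := Nat.pow_le_pow_right (by norm_num) (Nat.le_mul_of_pos_right _ hk1)
    have e4 : k.factorial * (reps B h n).ncard ≤ k.factorial * R₀ := Nat.mul_le_mul_left _ (by omega)
    have e5 : k.factorial * R₀ ≤ m := le_max_right _ _
    omega
  refine ⟨n, hnN, ?_⟩
  have hr0 : (0 : ℝ) < ((reps B h n).ncard : ℝ) := by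
    have e1 : 0 < 2 ^ (m * k) := by positivity
    have e2 : 0 < k.factorial * (reps B h n).ncard := by omega
    exact_mod_cast Nat.pos_of_mul_pos_left e2
  have hh0 : (0 : ℝ) < h := by exact_mod_cast (by omega : 0 < h)
  rcases Nat.eq_zero_or_pos n with hn0 | hn0
  · rw [hn0, Nat.cast_zero, Real.zero_rpow (by positivity)]
    rw [← hn0]
    exact hr0.le
  have hn0' : (0 : ℝ) < n := by exact_mod_cast hn0
  have h5 : (n : ℝ) ≤ h * (K * (Q : ℝ) ^ (m + 1)) := by exact_mod_cast hn1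
  have h6 : Real.log n ≤ Real.log h + Real.log K + (m + 1) * Real.log Q := by
    have := Real.log_le_log hn0' h5
    rw [Real.log_mul (by positivity) (by positivity), Real.log_mul (by positivity) (by positivity),
      Real.log_pow] at this
    push_cast at this
    linarith
  have h7 : (m * k : ℝ) * Real.log 2 ≤ Real.log k.factorial + Real.log (reps B h n).ncard := by
    have e1 : (2 : ℝ) ^ (m * k) ≤ k.factorial * (reps B h n).ncard := by exact_mod_cast hn2
    have := Real.log_le_log (by positivity) e1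
    rw [Real.log_pow, Real.log_mul (by positivity) hr0.ne'] at this
    push_cast at this
    exact this
  rw [Real.rpow_def_of_pos hn0']
  rw [← Real.le_log_iff_exp_le hr0]
  have e1 : Real.log n * (c * h) ≤
      (Real.log h + Real.log K + (m + 1) * Real.log Q) * (c * h) :=
    mul_le_mul_of_nonneg_right h6 (by positivity)
  have e2 : (m : ℝ) * Real.log Q * (c * h) = m * h * (Real.log 2 / 6) := by
    rw [hc]; field_simp
  have e3 := hm₁ m (le_max_left _ _)
  have e4 : (h : ℝ) ≤ 3 * k := by exact_mod_cast hk3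
  have e5 : (m : ℝ) * h * (Real.log 2 / 6) ≤ m * k * (Real.log 2 / 2) := by
    have : (m : ℝ) * h * (Real.log 2 / 6) ≤ m * (3 * k) * (Real.log 2 / 6) := by gcongr
    calc _ ≤ _ := this
      _ = _ := by ring
  have e6 : (m : ℝ) * (Real.log 2 / 2) ≤ m * k * (Real.log 2 / 2) := by
    have hk1' : (1 : ℝ) ≤ k := by exact_mod_cast hk1
    have : (m : ℝ) * 1 * (Real.log 2 / 2) ≤ m * k * (Real.log 2 / 2) := by gcongr
    linarith
  nlinarith

/-- **Dichotomy** for one member of a solution. -/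
theorem dichotomy {ι : Type} [Fintype ι] {E : Finset (ι × ι × ℕ × ℤ)} {F : ι → Finset ℕ}
    {A : ι → Set ℕ} (hE : ∀ i j q d, (i, j, q, d) ∈ E → 2 ≤ q) (hA : IsSolution E F A) (i : ι) :
    (∃ (C : ℝ) (k : ℕ), ∀ N : ℕ, ((A i ∩ Set.Iic N).ncard : ℝ) ≤ C * Real.log (N + 2) ^ k) ∨
    ∃ c : ℝ, 0 < c ∧ ∀ B : Set ℕ, A i ⊆ B → ∀ h : ℕ, 2 ≤ h → Large B c h := by
  classical
  set R : ι → Prop := fun j => ∃ Q D, W E Finset.univ i j Q D with hR
  set V₀ : Finset ι := Finset.univ.filter (fun j => R j ∧ (A j).Nonempty) with hV₀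
  by_cases hc : ∀ j ∈ V₀, ∀ Q D D', W E V₀ j j Q D → W E V₀ j j Q D' → D = D'
  · left
    set B : ℕ := E.sup (fun e => e.2.2.2.natAbs) + Finset.univ.sup (fun i => (F i).sup id) with hB
    set qm : ℕ := E.sup (fun e => e.2.2.1) + 1 with hqm
    have hB1 : ∀ i j q d, (i, j, q, d) ∈ E → -(B : ℤ) ≤ d ∧ q ≤ qm := by
      intro i j q d he
      have h1 : d.natAbs ≤ E.sup (fun e => e.2.2.2.natAbs) :=
        Finset.le_sup (f := fun e : ι × ι × ℕ × ℤ => e.2.2.2.natAbs) he
      have h2 : q ≤ E.sup (fun e => e.2.2.1) :=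
        Finset.le_sup (f := fun e : ι × ι × ℕ × ℤ => e.2.2.1) he
      refine ⟨by omega, by omega⟩
    have hB2 : ∀ i, ∀ x ∈ F i, x ≤ B := by
      intro i x hx
      have h1 : x ≤ (F i).sup id := Finset.le_sup (f := id) hx
      have h2 : (F i).sup id ≤ Finset.univ.sup (fun i => (F i).sup id) :=
        Finset.le_sup (f := fun i => (F i).sup id) (Finset.mem_univ i)
      omega
    have hR1 : ∀ i' j q d, (i', j, q, d) ∈ E → R i' → R j := by
      rintro i' j q d he ⟨Q, D, h⟩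
      exact ⟨_, _, h.trans (W.cons he (Finset.mem_univ j) (W.nil j))⟩
    have hV : ∀ j, R j → (A j).Nonempty → j ∈ V₀ := fun j h1 h2 =>
      Finset.mem_filter.2 ⟨Finset.mem_univ j, h1, h2⟩
    -- the counting function
    set g : ℕ := Fintype.card ι with hg
    set s : ℕ := E.card with hs
    have count : ∀ N : ℕ, (A i ∩ Set.Iic N).ncard ≤
        g * (((Nat.log 2 (qm * (N + 1)) + 1) ^ s * (1 + s)) ^ (g + 1)) * (B + 1) := by
      intro N
      have h1 := card_walks hE V₀ hc (qm * (N + 1)) g V₀ (Finset.Subset.refl _)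
        (Finset.card_le_univ _) i
      choose T hT hTm using h1
      have h2 : A i ∩ Set.Iic N ⊆ (((Finset.univ : Finset ι).biUnion
          (fun l => (T l ×ˢ Finset.range (B + 1)).image
            (fun p => ((p.1.1 : ℤ) * p.2 + p.1.2).toNat)) : Finset ℕ) : Set ℕ) := by
        rintro x ⟨hx, hxN⟩
        rw [Set.mem_Iic] at hxN
        obtain ⟨j, Q, D, y, hw, hy, hyB, hxy, h3, h4⟩ := descent hE hA hB1 hB2 hR1 hV x i
          ⟨1, 0, W.nil i⟩ hx
        have hQ : Q ≤ qm * (N + 1) := by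
          by_cases hxB : x ≤ B
          · rw [h3 hxB]
            exact Nat.mul_pos (by omega) (by omega)
          · exact (h4 (by omega)).trans (Nat.mul_le_mul_left _ (by omega))
        rw [Finset.mem_coe, Finset.mem_biUnion]
        refine ⟨j, Finset.mem_univ j, ?_⟩
        rw [Finset.mem_image]
        refine ⟨((Q, D), y), Finset.mem_product.2 ⟨hTm j Q D hw hQ,
          Finset.mem_range.2 (by omega)⟩, ?_⟩
        simp only
        omega
      have h3 := Set.ncard_le_ncard h2 (Finset.finite_toSet _)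
      rw [Set.ncard_coe_finset] at h3
      refine h3.trans (Finset.card_biUnion_le.trans ?_)
      refine (Finset.sum_le_card_nsmul _ _
        (((Nat.log 2 (qm * (N + 1)) + 1) ^ s * (1 + s)) ^ (g + 1) * (B + 1)) ?_).trans ?_
      · intro l _
        refine Finset.card_image_le.trans ?_
        rw [Finset.card_product, Finset.card_range]
        exact Nat.mul_le_mul_right _ (hT l)
      · rw [smul_eq_mul, Finset.card_univ, mul_assoc]
    have hl2 : (0 : ℝ) < Real.log 2 := Real.log_pos (by norm_num)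
    set K : ℝ := (Real.log qm + 2 * Real.log 2) / (Real.log 2 * Real.log 2) + 1 / Real.log 2 with hK
    have hqm1 : (1 : ℝ) ≤ qm := by exact_mod_cast (by omega : 1 ≤ qm)
    have hlq : 0 ≤ Real.log qm := Real.log_nonneg hqm1
    have hK0 : 0 ≤ K := by positivity
    have hlog : ∀ N : ℕ, ((Nat.log 2 (qm * (N + 1)) + 1 : ℕ) : ℝ) ≤ K * Real.log (N + 2) := by
      intro N
      have hN : (0 : ℝ) ≤ N := Nat.cast_nonneg N
      have h1 : (2 : ℝ) ^ Nat.log 2 (qm * (N + 1)) ≤ qm * (N + 1) := by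
        exact_mod_cast Nat.pow_log_le_self 2 (by positivity : qm * (N + 1) ≠ 0)
      have h2 := Real.log_le_log (by positivity) h1
      rw [Real.log_pow, Real.log_mul (by positivity) (by positivity)] at h2
      have h3 : Real.log (N + 1) ≤ Real.log (N + 2) :=
        Real.log_le_log (by positivity) (by linarith)
      have h4 : Real.log 2 ≤ Real.log (N + 2) := Real.log_le_log (by norm_num) (by linarith)
      have h5 : ((Nat.log 2 (qm * (N + 1)) : ℕ) : ℝ) ≤
          (Real.log qm + Real.log (N + 2)) / Real.log 2 := by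
        rw [le_div_iff₀ hl2]
        linarith
      have h6 : Real.log qm + 2 * Real.log 2 ≤
          (Real.log qm + 2 * Real.log 2) / Real.log 2 * Real.log (N + 2) := by
        rw [div_mul_eq_mul_div, le_div_iff₀ hl2]
        exact mul_le_mul_of_nonneg_left h4 (by positivity)
      push_cast
      calc (Nat.log 2 (qm * (N + 1)) : ℝ) + 1
          ≤ (Real.log qm + Real.log (N + 2)) / Real.log 2 + 1 := by linarith
        _ = (Real.log qm + Real.log 2) / Real.log 2 + 1 / Real.log 2 * Real.log (N + 2) := by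
            field_simp
            ring
        _ ≤ (Real.log qm + 2 * Real.log 2) / Real.log 2 / Real.log 2 * Real.log (N + 2) +
            1 / Real.log 2 * Real.log (N + 2) := by
            have h7 : (Real.log qm + Real.log 2) / Real.log 2 ≤
                (Real.log qm + 2 * Real.log 2) / Real.log 2 / Real.log 2 * Real.log (N + 2) := by
              have h8 : (Real.log qm + Real.log 2) / Real.log 2 ≤
                  (Real.log qm + 2 * Real.log 2) / Real.log 2 := by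
                gcongr
                linarith
              have h9 := div_le_div_of_nonneg_right h6 hl2.le
              calc _ ≤ _ := h8
                _ ≤ _ := h9
                _ = _ := by ring
            linarith
        _ = K * Real.log (N + 2) := by rw [hK]; field_simp
    refine ⟨g * ((K ^ s * (1 + s)) ^ (g + 1)) * (B + 1), s * (g + 1), fun N => ?_⟩
    have hN : (0 : ℝ) ≤ N := Nat.cast_nonneg N
    have hL : 0 ≤ Real.log (N + 2) := Real.log_nonneg (by linarith)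
    have h1 : ((A i ∩ Set.Iic N).ncard : ℝ) ≤
        g * ((((Nat.log 2 (qm * (N + 1)) + 1 : ℕ) : ℝ) ^ s * (1 + s)) ^ (g + 1)) * (B + 1) := by
      have := count N
      have h2 : ((A i ∩ Set.Iic N).ncard : ℝ) ≤
        ((g * (((Nat.log 2 (qm * (N + 1)) + 1) ^ s * (1 + s)) ^ (g + 1)) * (B + 1) : ℕ) : ℝ) := by
        exact_mod_cast this
      refine h2.trans (le_of_eq ?_)
      push_cast
      ring
    refine h1.trans ?_
    calc (g : ℝ) * ((((Nat.log 2 (qm * (N + 1)) + 1 : ℕ) : ℝ) ^ s * (1 + s)) ^ (g + 1)) * (B + 1)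
        ≤ g * (((K * Real.log (N + 2)) ^ s * (1 + s)) ^ (g + 1)) * (B + 1) := by
          gcongr
          exact hlog N
      _ = g * ((K ^ s * (1 + s)) ^ (g + 1)) * (B + 1) * Real.log (N + 2) ^ (s * (g + 1)) := by
          have e : ((K * Real.log (N + 2)) ^ s * (1 + s)) ^ (g + 1) =
              (K ^ s * (1 + s)) ^ (g + 1) * Real.log (N + 2) ^ (s * (g + 1)) := by
            rw [mul_pow K, mul_right_comm, mul_pow _ (Real.log (N + 2) ^ s), ← pow_mul]
          rw [e]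
          ring
  · right
    push Not at hc
    obtain ⟨j, hj, Q, D, D', h1, h2, hne⟩ := hc
    obtain ⟨-, ⟨P, G, hPG⟩, a, ha⟩ := Finset.mem_filter.1 hj
    have hQ : 2 ≤ Q := by
      have h3 := h1.pos hE
      have h4 := h2.pos hE
      by_contra hlt
      have hQ1 : Q = 1 := by omega
      exact hne ((h3.2 hQ1).trans (h4.2 hQ1).symm)
    exact power_growth hQ hne (h1.maps hA) (h2.maps hA) ha (hPG.pos hE).1 (hPG.maps hA)

/-- the conclusion for a union -/
lemma growth_of_union {ι : Type} [Fintype ι] {E : Finset (ι × ι × ℕ × ℤ)} {F : ι → Finset ℕ}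
    {A : ι → Set ℕ} (hE : ∀ i j q d, (i, j, q, d) ∈ E → 2 ≤ q) (hA : IsSolution E F A)
    (I : Set ι) (hN : ∃ ε : ℝ, 0 < ε ∧ ∀ N₀ : ℕ, ∃ N : ℕ, N₀ ≤ N ∧
      (N : ℝ) ^ ε ≤ (((⋃ i ∈ I, A i) ∩ Set.Iic N).ncard : ℝ)) :
    ∃ c : ℝ, 0 < c ∧ ∀ B : Set ℕ, (⋃ i ∈ I, A i) ⊆ B → ∀ h : ℕ, 2 ≤ h → Large B c h := by
  classical
  by_cases h : ∃ i ∈ I, ∃ c : ℝ, 0 < c ∧ ∀ B : Set ℕ, A i ⊆ B → ∀ h : ℕ, 2 ≤ h → Large B c h
  · obtain ⟨i, hi, c, hc, h⟩ := h
    exact ⟨c, hc, fun B hB => h B ((Set.subset_biUnion_of_mem (u := A) hi).trans hB)⟩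
  exfalso
  have h1 : ∀ i ∈ I, ∃ (C : ℝ) (k : ℕ), ∀ N : ℕ,
      ((A i ∩ Set.Iic N).ncard : ℝ) ≤ C * Real.log (N + 2) ^ k := by
    intro i hi
    rcases dichotomy hE hA i with h2 | h2
    · exact h2
    · exact absurd ⟨i, hi, h2⟩ h
  choose! C k hCk using h1
  obtain ⟨ε, hε, hN⟩ := hN
  -- each term is `o(N ^ ε)`
  have h2 : ∀ (c : ℝ) (k : ℕ), Filter.Tendsto
      (fun N : ℕ => c * Real.log (N + 2) ^ k / ((N : ℝ) + 2) ^ ε) Filter.atTop (nhds 0) := by
    intro c k
    have h3 : Filter.Tendsto (fun x : ℝ => Real.log x ^ k / x ^ ε) Filter.atTop (nhds 0) := by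
      have := isLittleO_log_rpow_rpow_atTop (k : ℝ) hε
      have h4 := this.tendsto_div_nhds_zero
      refine h4.congr' ?_
      filter_upwards with x
      rw [Real.rpow_natCast]
    have h5 : Filter.Tendsto (fun N : ℕ => (N : ℝ) + 2) Filter.atTop Filter.atTop :=
      Filter.tendsto_atTop_add_const_right _ _ tendsto_natCast_atTop_atTop
    have h6 := (h3.comp h5).const_mul c
    rw [mul_zero] at h6
    refine h6.congr (fun N => ?_)
    simp only [Function.comp]
    ring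
  have h3 : Filter.Tendsto (fun N : ℕ => ∑ i : ι, |C i| * Real.log (N + 2) ^ (k i) /
      ((N : ℝ) + 2) ^ ε) Filter.atTop (nhds 0) := by
    have := tendsto_finsetSum (Finset.univ : Finset ι) (fun i _ => h2 |C i| (k i))
    simpa using this
  have h4 : (0 : ℝ) < 1 / 3 ^ ε := by positivity
  obtain ⟨N₁, hN₁⟩ := Filter.eventually_atTop.1 (h3.eventually_lt_const h4)
  obtain ⟨N, hNN, hNc⟩ := hN (max N₁ 1)
  have hN1 : (1 : ℝ) ≤ N := by exact_mod_cast (le_trans (le_max_right _ _) hNN)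
  have h5 := hN₁ N (le_trans (le_max_left _ _) hNN)
  have h6 : (((⋃ i ∈ I, A i) ∩ Set.Iic N).ncard : ℝ) ≤
      ∑ i : ι, |C i| * Real.log (N + 2) ^ (k i) := by
    have h7 : (⋃ i ∈ I, A i) ∩ Set.Iic N ⊆
        ⋃ i ∈ (Finset.univ.filter (· ∈ I)), (A i ∩ Set.Iic N) := by
      rintro x ⟨hx, hxN⟩
      rw [Set.mem_iUnion₂] at hx ⊢
      obtain ⟨i, hi, hx⟩ := hx
      exact ⟨i, Finset.mem_filter.2 ⟨Finset.mem_univ i, hi⟩, hx, hxN⟩
    have hfin : ∀ i, (A i ∩ Set.Iic N).Finite := fun i =>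
      (Set.finite_Iic N).subset Set.inter_subset_right
    have h8 : ((⋃ i ∈ I, A i) ∩ Set.Iic N).ncard ≤
        ∑ i ∈ Finset.univ.filter (· ∈ I), (A i ∩ Set.Iic N).ncard := by
      refine (Set.ncard_le_ncard h7 ?_).trans (Finset.set_ncard_biUnion_le _ _)
      exact Set.Finite.biUnion (Finset.finite_toSet _) (fun i _ => hfin i)
    calc (((⋃ i ∈ I, A i) ∩ Set.Iic N).ncard : ℝ)
        ≤ ((∑ i ∈ Finset.univ.filter (· ∈ I), (A i ∩ Set.Iic N).ncard : ℕ) : ℝ) := by
          exact_mod_cast h8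
      _ = ∑ i ∈ Finset.univ.filter (· ∈ I), ((A i ∩ Set.Iic N).ncard : ℝ) := by push_cast; rfl
      _ ≤ ∑ i ∈ Finset.univ.filter (· ∈ I), |C i| * Real.log (N + 2) ^ (k i) := by
          refine Finset.sum_le_sum (fun i hi => (hCk i (Finset.mem_filter.1 hi).2 N).trans ?_)
          have : 0 ≤ Real.log ((N : ℝ) + 2) := Real.log_nonneg (by linarith)
          exact mul_le_mul_of_nonneg_right (le_abs_self _) (by positivity)
      _ ≤ ∑ i : ι, |C i| * Real.log (N + 2) ^ (k i) := by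
          refine Finset.sum_le_sum_of_subset_of_nonneg (Finset.filter_subset _ _) ?_
          intro i _ _
          have : 0 ≤ Real.log ((N : ℝ) + 2) := Real.log_nonneg (by linarith)
          positivity
  have h7 : (0 : ℝ) < ((N : ℝ) + 2) ^ ε := by positivity
  rw [← Finset.sum_div, div_lt_iff₀ h7] at h5
  have h8 : ((N : ℝ) + 2) ^ ε ≤ 3 ^ ε * (N : ℝ) ^ ε := by
    rw [← Real.mul_rpow (by norm_num) (by linarith)]
    exact Real.rpow_le_rpow (by linarith) (by linarith) hε.le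
  have h9 : 1 / 3 ^ ε * ((N : ℝ) + 2) ^ ε ≤ (N : ℝ) ^ ε := by
    have h10 : (0 : ℝ) < 3 ^ ε := by positivity
    rw [div_mul_eq_mul_div, one_mul, div_le_iff₀ h10]
    linarith
  linarith

/-- a basis of order `k` which is the union of `U` and a thin set -/
lemma growth_of_basis {B U : Set ℕ} {k : ℕ} (hk : 1 ≤ k)
    (hb : ∃ n₀ : ℕ, ∀ n, n₀ ≤ n → (reps B k n).Nonempty)
    (hS : ∃ ε : ℝ, 0 < ε ∧ ∀ N₀ : ℕ, ∃ N : ℕ, N₀ ≤ N ∧
      (((B \ U) ∩ Set.Iic N).ncard : ℝ) ≤ (N : ℝ) ^ ((1 : ℝ) / k - ε)) :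
    ∃ ε : ℝ, 0 < ε ∧ ∀ N₀ : ℕ, ∃ N : ℕ, N₀ ≤ N ∧ (N : ℝ) ^ ε ≤ ((U ∩ Set.Iic N).ncard : ℝ) := by
  classical
  obtain ⟨n₀, hn₀⟩ := hb
  obtain ⟨ε, hε, hS⟩ := hS
  have hk0 : (0 : ℝ) < k := by exact_mod_cast (by omega : 0 < k)
  have hk1 : (1 : ℝ) ≤ k := by exact_mod_cast hk
  refine ⟨1 / (2 * k), by positivity, fun N₀ => ?_⟩
  have t1 : Filter.Tendsto (fun N : ℕ => (N : ℝ) ^ ε) Filter.atTop Filter.atTop :=
    (tendsto_rpow_atTop hε).comp tendsto_natCast_atTop_atTop
  have t2 : Filter.Tendsto (fun N : ℕ => (N : ℝ) ^ (1 / (2 * k : ℝ))) Filter.atTop Filter.atTop :=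
    (tendsto_rpow_atTop (by positivity)).comp tendsto_natCast_atTop_atTop
  obtain ⟨N₁, hN₁⟩ := Filter.eventually_atTop.1 (t1.eventually_ge_atTop 4)
  obtain ⟨N₂, hN₂⟩ := Filter.eventually_atTop.1 (t2.eventually_ge_atTop 4)
  obtain ⟨N, hN, hSN⟩ := hS (max N₀ (max N₁ (max N₂ (2 * n₀ + 1))))
  simp only [max_le_iff] at hN
  obtain ⟨hN0, hN1, hN2, hN3⟩ := hN
  refine ⟨N, hN0, ?_⟩
  have a1 := hN₁ N hN1
  have a2 := hN₂ N hN2
  have hfin : (B ∩ Set.Iic N).Finite := (Set.finite_Iic N).subset Set.inter_subset_right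
  have b1 : N + 1 ≤ n₀ + (hfin.toFinset).card ^ k :=
    count_pow (fun n hn _ => hn₀ n hn) (fun a ha haN => by
      rw [Set.Finite.mem_toFinset]
      exact ⟨ha, haN⟩)
  rw [← Set.ncard_eq_toFinset_card _ hfin] at b1
  have b2 : (B ∩ Set.Iic N).ncard ≤ (U ∩ Set.Iic N).ncard + ((B \ U) ∩ Set.Iic N).ncard := by
    refine (Set.ncard_le_ncard (t := (U ∩ Set.Iic N) ∪ ((B \ U) ∩ Set.Iic N)) ?_ ?_).trans
      (Set.ncard_union_le _ _)
    · rintro x ⟨hx, hxN⟩
      by_cases hxU : x ∈ U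
      · exact Or.inl ⟨hxU, hxN⟩
      · exact Or.inr ⟨⟨hx, hxU⟩, hxN⟩
    · exact ((Set.finite_Iic N).subset Set.inter_subset_right).union
        ((Set.finite_Iic N).subset Set.inter_subset_right)
  set b := (B ∩ Set.Iic N).ncard with hb
  set u := (U ∩ Set.Iic N).ncard with hu
  have hN0' : (0 : ℝ) < N := by exact_mod_cast (by omega : 0 < N)
  -- `b ≥ N ^ (1/k) / 2`
  have b3 : (N : ℝ) ≤ 2 * (b : ℝ) ^ k := by
    have : N ≤ 2 * b ^ k := by omega
    exact_mod_cast this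
  have b4 : (N : ℝ) ^ (1 / (k : ℝ)) ≤ 2 * b := by
    have e1 : (2 * (b : ℝ) ^ k) ≤ (2 * b) ^ k := by
      rw [mul_pow]
      gcongr
      exact le_self_pow₀ (by norm_num) (by omega)
    calc (N : ℝ) ^ (1 / (k : ℝ)) ≤ ((2 * (b : ℝ)) ^ k) ^ (1 / (k : ℝ)) :=
          Real.rpow_le_rpow hN0'.le (b3.trans e1) (by positivity)
      _ = 2 * b := by
          rw [← Real.rpow_natCast, ← Real.rpow_mul (by positivity), mul_one_div_cancel hk0.ne',
            Real.rpow_one]
  have b5 : (N : ℝ) ^ ((1 : ℝ) / k - ε) * (N : ℝ) ^ ε = (N : ℝ) ^ (1 / (k : ℝ)) := by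
    rw [← Real.rpow_add hN0', sub_add_cancel]
  have b6 : (N : ℝ) ^ (1 / (2 * k : ℝ)) * (N : ℝ) ^ (1 / (2 * k : ℝ)) = (N : ℝ) ^ (1 / (k : ℝ)) := by
    rw [← Real.rpow_add hN0']
    congr 1
    field_simp
    norm_num
  have b7 : (b : ℝ) ≤ u + (N : ℝ) ^ ((1 : ℝ) / k - ε) := by
    have : (b : ℝ) ≤ u + (((B \ U) ∩ Set.Iic N).ncard : ℝ) := by exact_mod_cast b2
    linarith
  have p1 : 0 < (N : ℝ) ^ ((1 : ℝ) / k - ε) := by positivity
  have p2 : 0 < (N : ℝ) ^ (1 / (2 * k : ℝ)) := by positivity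
  have b8 : 4 * (N : ℝ) ^ ((1 : ℝ) / k - ε) ≤ (N : ℝ) ^ (1 / (k : ℝ)) := by
    rw [← b5, mul_comm]
    exact mul_le_mul_of_nonneg_left a1 p1.le
  have b9 : 4 * (N : ℝ) ^ (1 / (2 * k : ℝ)) ≤ (N : ℝ) ^ (1 / (k : ℝ)) := by
    rw [← b6]
    exact mul_le_mul_of_nonneg_right a2 p2.le
  linarith

/-- **Sets given by affine systems with different multipliers, sums of `h` elements.** -/
theorem result {ι : Type} [Fintype ι] (E : Finset (ι × ι × ℕ × ℤ)) (F : ι → Finset ℕ)
    (A : ι → Set ℕ) (hE : ∀ i j q d, (i, j, q, d) ∈ E → 2 ≤ q) (hA : IsSolution E F A) :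
    (∀ i : ι,
      (∃ (C : ℝ) (k : ℕ), ∀ N : ℕ, ((A i ∩ Set.Iic N).ncard : ℝ) ≤ C * Real.log (N + 2) ^ k) ∨
      ∃ c : ℝ, 0 < c ∧ ∀ B : Set ℕ, A i ⊆ B → ∀ h : ℕ, 2 ≤ h → Large B c h) ∧
    (∀ I : Set ι,
      (∃ ε : ℝ, 0 < ε ∧ ∀ N₀ : ℕ, ∃ N : ℕ, N₀ ≤ N ∧
        (N : ℝ) ^ ε ≤ (((⋃ i ∈ I, A i) ∩ Set.Iic N).ncard : ℝ)) →
      ∃ c : ℝ, 0 < c ∧ ∀ B : Set ℕ, (⋃ i ∈ I, A i) ⊆ B → ∀ h : ℕ, 2 ≤ h → Large B c h) ∧
    (∀ (I : Set ι) (B : Set ℕ) (k : ℕ), (⋃ i ∈ I, A i) ⊆ B → 1 ≤ k →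
      (∃ n₀ : ℕ, ∀ n, n₀ ≤ n → (reps B k n).Nonempty) →
      (∃ ε : ℝ, 0 < ε ∧ ∀ N₀ : ℕ, ∃ N : ℕ, N₀ ≤ N ∧
        (((B \ ⋃ i ∈ I, A i) ∩ Set.Iic N).ncard : ℝ) ≤ (N : ℝ) ^ ((1 : ℝ) / k - ε)) →
      ∃ c : ℝ, 0 < c ∧ ∀ h : ℕ, 2 ≤ h → Large B c h) := by
  refine ⟨fun i => dichotomy hE hA i, fun I h => growth_of_union hE hA I h, ?_⟩
  intro I B k hB hk hb hS
  obtain ⟨c, hc, h⟩ := growth_of_union hE hA I (growth_of_basis hk hb hS)
  exact ⟨c, hc, h B hB⟩

end Pool.Agent.Results.MP_d5a1e1_nt.AffineSystems
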