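import Pool.Agent.Q247.ET.Core2
import Pool.Agent.Q247.ET.Carry

/-!
# MP_d5a1e1_nt: the Erdős–Turán conjecture for bases whose representations do not need many carries

Let `g ≥ 2`. The carry into the `i`-th place in the addition of `a_1, ..., a_h` in base `g` is
`⌊(∑_j (a_j mod g ^ i)) / g ^ i⌋`, and `carries g a` is the sum of all carries, so that
`∑_j ds (a_j) = ds (∑_j a_j) + (g - 1) * carries g a`, where `ds` is the sum of the digits in
base `g`.

1. (General form.) Let `w` be an injective sequence of integers, let `M ≥ 1` and `C` be fixed. If all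
   sums `n = w (y 1) + ... + w (y s)`, `i₀ ≤ y 1 < ... < y s`, have a representation
   `n = a_1 + ... + a_h` by elements of `A` for which each `M a_j` is a linear combination of
   `1, w (y 1), ..., w (y s)` with integer coefficients of absolute value at most `C`, then
   `r_{A,h}(m) ≥ 2 ^ (⌈s/h⌉ - 1)` for infinitely many `m`.
2. Let `s ≥ 1` and let `c` be **arbitrary**. If every large `n` with digit sum `s` is a sum of
   `h` elements of `A` with carries at most `c`, then `r_{A,h}(m) ≥ 2 ^ (⌈s/h⌉ - 1)` for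
   infinitely many `m`.
3. So `r_{A,h}` is unbounded if the number of carries can be bounded by *any* function of the digit
   sum of `n`.
4. If `r_{A,h} ≤ K < 2 ^ (⌈s/h⌉ - 1)`, then in every base `g` and for every `c` there are
   infinitely many `n` with digit sum `s` such that every representation of `n` as a sum of `h`
   elements of `A` has more than `c` carries.

Method. By Ramsey's theorem for `s`-subsets we pass to a subsequence on which the coefficients do not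
depend on `y`; the coefficients `u_j(p)` satisfy `∑_j u_j(p) = M`, so one `u_j` has at least
`⌈s/h⌉` nonzero entries. Take pairs of indices `z_p < z'_p < z_{p+1}` with rapidly increasing
differences `|w (z'_p) - w (z_p)|`. For `Z ⊆ {1, ..., s}` let `b_Z` be the `j`-th summand for
`y_p = z'_p` (`p ∈ Z`), `y_p = z_p` (`p ∉ Z`). Then `b_Z + b_{Z^c}` does not depend on `Z`, and the
`b_Z` are different for the `2 ^ ⌈s/h⌉` subsets `Z` of the support of `u_j`.
-/

set_option autoImplicit false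

namespace Pool.Agent.Results.MP_d5a1e1_nt.BoundedCarries

open Finset Pool.Agent.Q247.ET

/-- The number of unordered representations of `n` as a sum of `h` elements of `A`. -/
noncomputable def r (A : Set ℕ) (h n : ℕ) : ℕ :=
  Set.ncard {s : Multiset ℕ | Multiset.card s = h ∧ (∀ a ∈ s, a ∈ A) ∧ s.sum = n}

/-- The sum of the digits of `n` in base `g`. -/
def ds (g n : ℕ) : ℕ := (Nat.digits g n).sum

/-- The sum of the carries in the addition of `a 0, ..., a (h-1)` in base `g`. The carry into the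
`(i+1)`-st place is the integer part of `(∑ j, a j mod g ^ (i+1)) / g ^ (i+1)`; it is zero for
`i ≥ ∑ j, a j`. -/
def carries (g : ℕ) {h : ℕ} (a : Fin h → ℕ) : ℕ :=
  ∑ i ∈ range (∑ j, a j), (∑ j, a j % g ^ (i + 1)) / g ^ (i + 1)

theorem ds_add {g h : ℕ} (hg : 2 ≤ g) (a : Fin h → ℕ) :
    ∑ j, ds g (a j) = ds g (∑ j, a j) + (g - 1) * carries g a := by
  obtain ⟨n, hn⟩ : ∃ n, n = ∑ j, a j := ⟨_, rfl⟩
  have hnR : n < g ^ n := Nat.lt_pow_self (by omega)
  have haR : ∀ j, a j < g ^ n := fun j => lt_of_le_of_lt (by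
    rw [hn]
    exact Finset.single_le_sum (f := a) (fun _ _ => Nat.zero_le _) (mem_univ j)) hnR
  have h1 := legendre hg n n hnR
  have h2 : ∑ j, ((Nat.digits g (a j)).sum + (g - 1) * ∑ i ∈ range n, a j / g ^ (i + 1)) = n := by
    rw [hn]
    exact Finset.sum_congr rfl fun j _ => by rw [← hn]; exact legendre hg n _ (haR j)
  rw [Finset.sum_add_distrib, ← Finset.mul_sum, Finset.sum_comm] at h2
  have h3 : carries g a + ∑ i ∈ range n, ∑ j, a j / g ^ (i + 1) =
      ∑ i ∈ range n, n / g ^ (i + 1) := by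
    unfold carries
    rw [← hn, ← Finset.sum_add_distrib]
    refine Finset.sum_congr rfl fun i _ => ?_
    have h4 : n = ∑ j, a j % g ^ (i + 1) + g ^ (i + 1) * ∑ j, a j / g ^ (i + 1) := by
      rw [hn, Finset.mul_sum, ← Finset.sum_add_distrib]
      exact Finset.sum_congr rfl fun j _ => (Nat.mod_add_div _ _).symm
    conv_rhs => rw [h4]
    rw [Nat.add_mul_div_left _ _ (pow_pos (by omega) _)]
  rw [← h3, mul_add] at h1
  unfold ds
  rw [← hn]
  omega

theorem reps_finite (A : Set ℕ) (h n : ℕ) : (reps A h n).Finite := by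
  rw [reps_eq_image]
  apply Set.Finite.image
  refine (Set.finite_Iic (fun _ : Fin h => n)).subset ?_
  rintro f ⟨-, hf⟩
  intro i
  rw [← hf]
  exact Finset.single_le_sum (f := f) (fun _ _ => Nat.zero_le _) (mem_univ i)

theorem general {h s M C i₀ : ℕ} {A : Set ℕ} {w : ℕ → ℤ} (hh : 2 ≤ h) (hs : 1 ≤ s) (hM : 1 ≤ M)
    (hw : Function.Injective w)
    (hyp : ∀ y : Fin s → ℕ, StrictMono y → (∀ p, i₀ ≤ y p) →
      ∃ (a : Fin h → ℕ) (v : Fin h → ℤ) (u : Fin h → Fin s → ℤ), (∀ j, a j ∈ A) ∧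
        ∑ j, (a j : ℤ) = ∑ p, w (y p) ∧ (∀ j, |v j| ≤ C) ∧ (∀ j p, |u j p| ≤ C) ∧
        ∀ j, (M : ℤ) * a j = v j + ∑ p, u j p * w (y p)) (N : ℕ) :
    ∃ m ≥ N, 2 ^ (⌈(s : ℚ) / h⌉₊ - 1) ≤ r A h m := by
  obtain ⟨m, hm, hm2⟩ := core2 hh hs hM C hw i₀ hyp N
  refine ⟨m, hm, ?_⟩
  have h1 : ((r A h m : ℕ) : ℕ∞) = (reps A h m).encard := (reps_finite A h m).cast_ncard_eq
  rw [← h1] at hm2
  have h2 : 2 ^ ((s + h - 1) / h - 1) ≤ r A h m := by exact_mod_cast hm2
  refine le_trans (Nat.pow_le_pow_right (by norm_num) (Nat.sub_le_sub_right ?_ 1)) h2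
  rw [Nat.ceil_le, div_le_iff₀ (by positivity)]
  have h3 : s ≤ (s + h - 1) / h * h := by
    have := Nat.lt_div_mul_add (a := s + h - 1) (b := h) (by omega)
    omega
  exact_mod_cast h3

theorem main {g h s c : ℕ} {A : Set ℕ} (hg : 2 ≤ g) (hh : 2 ≤ h) (hs : 1 ≤ s)
    (hyp : ∃ N, ∀ n ≥ N, ds g n = s → ∃ a : Fin h → ℕ, (∀ j, a j ∈ A) ∧ ∑ j, a j = n ∧
      carries g a ≤ c) (N : ℕ) : ∃ m ≥ N, 2 ^ (⌈(s : ℚ) / h⌉₊ - 1) ≤ r A h m := by
  obtain ⟨N0, hN0⟩ := hyp
  have hgp : ∀ i, 0 < g ^ i := fun i => pow_pos (by omega) i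
  have hG : 2 ≤ g ^ (c + 1) := by
    calc 2 ≤ g := hg
      _ = g ^ 1 := (pow_one g).symm
      _ ≤ g ^ (c + 1) := Nat.pow_le_pow_right (by omega) (by omega)
  refine general (M := g ^ c) (C := g ^ c) (i₀ := N0)
    (w := fun i => ((g ^ c * (g ^ (c + 1)) ^ i : ℕ) : ℤ)) hh hs (hgp c) ?_ ?_ N
  · intro i i' hi
    beta_reduce at hi
    have h1 : g ^ c * (g ^ (c + 1)) ^ i = g ^ c * (g ^ (c + 1)) ^ i' := by exact_mod_cast hi
    exact Nat.pow_right_injective hG (Nat.eq_of_mul_eq_mul_left (hgp c) h1)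
  · intro y hy hy0
    have hmono : StrictMono (fun p => (c + 1) * y p + c) := fun p q hpq => by
      have h1 := hy hpq
      have h2 : (c + 1) * y p < (c + 1) * y q := Nat.mul_lt_mul_of_pos_left h1 (Nat.succ_pos c)
      show (c + 1) * y p + c < (c + 1) * y q + c
      omega
    have hpow : ∑ p, g ^ c * (g ^ (c + 1)) ^ (y p) = ∑ p, g ^ ((c + 1) * y p + c) :=
      Finset.sum_congr rfl fun p _ => by rw [← pow_mul, ← pow_add, add_comm]
    have hds : ds g (∑ p, g ^ c * (g ^ (c + 1)) ^ (y p)) = s := by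
      rw [hpow]
      exact digitSum_pows hg s _ hmono
    have hlarge : N0 ≤ ∑ p, g ^ c * (g ^ (c + 1)) ^ (y p) := by
      have h1 := hy0 ⟨0, hs⟩
      have h2 : y ⟨0, hs⟩ < (g ^ (c + 1)) ^ (y ⟨0, hs⟩) := Nat.lt_pow_self (by omega)
      have h3 : (g ^ (c + 1)) ^ (y ⟨0, hs⟩) ≤ g ^ c * (g ^ (c + 1)) ^ (y ⟨0, hs⟩) :=
        Nat.le_mul_of_pos_left _ (hgp c)
      have h4 : g ^ c * (g ^ (c + 1)) ^ (y ⟨0, hs⟩) ≤ ∑ p, g ^ c * (g ^ (c + 1)) ^ (y p) :=
        Finset.single_le_sum (f := fun p => g ^ c * (g ^ (c + 1)) ^ (y p))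
          (fun _ _ => Nat.zero_le _) (mem_univ _)
      omega
    obtain ⟨a, haA, hasum, hacar⟩ := hN0 _ hlarge hds
    have hsumds : ∑ j, (Nat.digits g (a j)).sum < s + (g - 1) * (c + 1) := by
      have h1 := ds_add hg a
      rw [hasum, hds] at h1
      unfold ds at h1
      rw [h1]
      have h2 : (g - 1) * carries g a < (g - 1) * (c + 1) :=
        Nat.mul_lt_mul_of_pos_left (by omega) (by omega)
      omega
    obtain ⟨x, hx1, -, hx3⟩ := carry hg y hy a hasum hsumds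
    refine ⟨a, fun _ => 0, fun j p => (x j p : ℤ), haA, ?_, fun j => by simp, fun j p => ?_,
      fun j => ?_⟩
    · exact_mod_cast hasum
    · have h1 : x j p ≤ ∑ j, x j p :=
        Finset.single_le_sum (f := fun j => x j p) (fun _ _ => Nat.zero_le _) (mem_univ j)
      rw [hx1] at h1
      beta_reduce
      rw [abs_of_nonneg (by positivity)]
      exact_mod_cast h1
    · rw [zero_add]
      have h1 : g ^ c * a j = ∑ p, x j p * (g ^ c * (g ^ (c + 1)) ^ (y p)) := by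
        rw [hx3 j, Finset.mul_sum]
        exact Finset.sum_congr rfl fun p _ => by ring
      beta_reduce
      exact_mod_cast h1

/-- **The Erdős–Turán conjecture for bases whose representations do not need many carries.** -/
theorem result :
    -- the number of carries and the sums of the digits
    (∀ g h : ℕ, 2 ≤ g → ∀ a : Fin h → ℕ,
      ∑ j, ds g (a j) = ds g (∑ j, a j) + (g - 1) * carries g a) ∧
    -- 1. the general form
    (∀ (h s M C i₀ : ℕ) (A : Set ℕ) (w : ℕ → ℤ), 2 ≤ h → 1 ≤ s → 1 ≤ M → Function.Injective w →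
      (∀ y : Fin s → ℕ, StrictMono y → (∀ p, i₀ ≤ y p) →
        ∃ (a : Fin h → ℕ) (v : Fin h → ℤ) (u : Fin h → Fin s → ℤ), (∀ j, a j ∈ A) ∧
          ∑ j, (a j : ℤ) = ∑ p, w (y p) ∧ (∀ j, |v j| ≤ C) ∧ (∀ j p, |u j p| ≤ C) ∧
          ∀ j, (M : ℤ) * a j = v j + ∑ p, u j p * w (y p)) →
      ∀ N, ∃ m ≥ N, 2 ^ (⌈(s : ℚ) / h⌉₊ - 1) ≤ r A h m) ∧
    -- 2. one digit sum `s`, any number `c` of carries
    (∀ (g h s c : ℕ) (A : Set ℕ), 2 ≤ g → 2 ≤ h → 1 ≤ s →
      (∃ N, ∀ n ≥ N, ds g n = s → ∃ a : Fin h → ℕ, (∀ j, a j ∈ A) ∧ ∑ j, a j = n ∧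
        carries g a ≤ c) →
      ∀ N, ∃ m ≥ N, 2 ^ (⌈(s : ℚ) / h⌉₊ - 1) ≤ r A h m) ∧
    -- 3. carries bounded by a function of the digit sum, for infinitely many digit sums
    (∀ (g h : ℕ) (A : Set ℕ) (B : ℕ → ℕ), 2 ≤ g → 2 ≤ h →
      (∀ s₀, ∃ s ≥ s₀, ∃ N, ∀ n ≥ N, ds g n = s → ∃ a : Fin h → ℕ, (∀ j, a j ∈ A) ∧
        ∑ j, a j = n ∧ carries g a ≤ B s) →
      ∀ K N : ℕ, ∃ m ≥ N, K < r A h m) ∧
    -- 4. counterexamples need arbitrarily many carries in every base
    (∀ (h K s : ℕ) (A : Set ℕ), 2 ≤ h → 1 ≤ s → K < 2 ^ (⌈(s : ℚ) / h⌉₊ - 1) → (∀ n, r A h n ≤ K) →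
      ∀ g : ℕ, 2 ≤ g → ∀ c N, ∃ n ≥ N, ds g n = s ∧
        ∀ a : Fin h → ℕ, (∀ j, a j ∈ A) → ∑ j, a j = n → c < carries g a) := by
  refine ⟨fun g h hg a => ds_add hg a,
    fun h s M C i₀ A w hh hs hM hw hyp N => general hh hs hM hw hyp N,
    fun g h s c A hg hh hs hyp N => main hg hh hs hyp N, ?_, ?_⟩
  · intro g h A B hg hh hyp K N
    obtain ⟨s, hs, hyp⟩ := hyp (h * (K + 1))
    have hpos : 0 < h * (K + 1) := by positivity
    obtain ⟨m, hm, hm2⟩ := main (A := A) (c := B s) hg hh (by omega) hyp N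
    refine ⟨m, hm, lt_of_lt_of_le ?_ hm2⟩
    have h1 : K + 1 ≤ ⌈(s : ℚ) / h⌉₊ := by
      have h2 : ((K + 1 : ℕ) : ℚ) ≤ (s : ℚ) / h := by
        rw [le_div_iff₀ (by positivity)]
        have h3 : (K + 1) * h ≤ s := by rw [mul_comm]; exact hs
        exact_mod_cast h3
      have h3 := h2.trans (Nat.le_ceil _)
      exact_mod_cast h3
    calc K < 2 ^ K := Nat.lt_two_pow_self
      _ ≤ 2 ^ (⌈(s : ℚ) / h⌉₊ - 1) := Nat.pow_le_pow_right (by norm_num) (by omega)
  · intro h K s A hh hs hKs hK g hg c N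
    by_contra hcon
    push Not at hcon
    obtain ⟨m, -, hm⟩ := main (A := A) (c := c) hg hh hs ⟨N, hcon⟩ 0
    have := hK m
    omega

end Pool.Agent.Results.MP_d5a1e1_nt.BoundedCarries
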