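import Mathlib
import Pool.Agent.Q50.ETP.Unb

/-!
# MP_d5a1e1_nt: a product over primes for the representation function of order `h`

`ord A h n` is the number of ordered `h`-tuples of elements of `A` with sum `n`, `rep A h n` is the number of
representations of `n` as a sum of `h` elements of `A` without regard to the order (`r_{A,h}(n)`), and `res A p` is the
number of residue classes modulo `p` which contain an element of `A`.  For a finite set `P` of primes put
`factor A h P = ∏_{p ∈ P} (1 + ((p - ν_p) / ν_p)^h / (p - 1)^(h - 1))`, `ν_p = res A p`.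

1. For every set `A`, every finite set `P` of primes with product `M` and every `0 < ρ < 1` the Abel means
   `mean f ρ = (1 - ρ) ∑ f(n) ρ^n` satisfy
   `factor A h P * (mean (ord) ρ)² ≤ M (1 - ρ) / (1 - ρ^M) * mean (ord²) ρ`.
2. Hence, if `ord A h n ≥ l` for all large `n`, then `ord A h n ≥ l * factor A h P` for infinitely many `n`.
3. Let `A` be an asymptotic basis of order `h`, or a set with `|A ∩ [1, N]|^h ≥ c N` for infinitely many `N`.  If the
   series `∑_p ((p - ν_p) / ν_p)^h / (p - 1)^(h - 1)` over all primes diverges, then `r_{A,h}` is not bounded in mean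
   square; in particular it is unbounded.
4. In particular this holds if there is a set `S` of primes with `∑_{p ∈ S} 1 / p = ∞` such that `ν_p ≤ p / 2` and
   `ν_p ≤ C p^(2/h)` for all `p ∈ S`.
-/

set_option autoImplicit false

open Filter Topology

namespace Pool.Agent.Results.MP_d5a1e1_nt.ResidueProductOrderH

/-- the number of ordered `h`-tuples of elements of `A` with sum `n` -/
noncomputable def ord (A : Set ℕ) (h n : ℕ) : ℕ :=
  {v : Fin h → ℕ | (∀ i, v i ∈ A) ∧ ∑ i, v i = n}.ncard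

/-- `r_{A,h}(n)`: the number of multisets of `h` elements of `A` with sum `n` -/
noncomputable def rep (A : Set ℕ) (h n : ℕ) : ℕ :=
  {s : Multiset ℕ | Multiset.card s = h ∧ (∀ a ∈ s, a ∈ A) ∧ s.sum = n}.ncard

/-- the number of residue classes modulo `q` which contain an element of `A` -/
noncomputable def res (A : Set ℕ) (q : ℕ) : ℕ := ((fun a => a % q) '' A).ncard

/-- the local term `((p - ν) / ν)^h / (p - 1)^(h - 1)`, `ν = res A p` -/
noncomputable def term (A : Set ℕ) (h p : ℕ) : ℝ :=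
  (((p : ℝ) - res A p) / res A p) ^ h / ((p : ℝ) - 1) ^ (h - 1)

/-- the product of the local factors -/
noncomputable def factor (A : Set ℕ) (h : ℕ) (P : Finset ℕ) : ℝ := ∏ p ∈ P, (1 + term A h p)

/-- the Abel mean `(1 - ρ) ∑ f(n) ρ^n` -/
noncomputable def mean (f : ℕ → ℝ) (ρ : ℝ) : ℝ := (1 - ρ) * ∑' n : ℕ, f n * ρ ^ n

/-- `r_{A,h}` is bounded in mean square -/
def MeanSquareBounded (A : Set ℕ) (h : ℕ) : Prop :=
  ∃ B : ℝ, ∀ᶠ N : ℕ in atTop, ∑ n ∈ Finset.range N, (rep A h n : ℝ) ^ 2 ≤ B * N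

/-- `A` is an asymptotic basis of order `h`, or `|A ∩ [1, N]|^h ≥ c N` for some `c > 0` and infinitely many `N` -/
def BasisOrThick (A : Set ℕ) (h : ℕ) : Prop :=
  (∀ᶠ n : ℕ in atTop, 1 ≤ rep A h n) ∨
    ∃ c : ℝ, 0 < c ∧ ∃ᶠ N : ℕ in atTop, c * N ≤ ((A ∩ Set.Icc 1 N).ncard : ℝ) ^ h

theorem bounded_meanSquare (A : Set ℕ) (h K : ℕ) (hK : ∀ n, rep A h n ≤ K) :
    MeanSquareBounded A h := by
  refine ⟨(K : ℝ) ^ 2, Eventually.of_forall fun N => ?_⟩
  calc ∑ n ∈ Finset.range N, (rep A h n : ℝ) ^ 2 ≤ ∑ _n ∈ Finset.range N, (K : ℝ) ^ 2 :=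
        Finset.sum_le_sum fun n _ =>
          pow_le_pow_left₀ (Nat.cast_nonneg _) (by exact_mod_cast hK n) 2
    _ = _ := by rw [Finset.sum_const, Finset.card_range, nsmul_eq_mul, mul_comm]

theorem nonempty_of (A : Set ℕ) (h : ℕ) (hh : 1 ≤ h) (hA : BasisOrThick A h) : A.Nonempty := by
  by_contra hcon
  rw [Set.not_nonempty_iff_eq_empty] at hcon
  subst hcon
  rcases hA with hA | ⟨c, hc, hA⟩
  · obtain ⟨n, hn⟩ := hA.exists
    have : {s : Multiset ℕ | Multiset.card s = h ∧ (∀ a ∈ s, a ∈ (∅ : Set ℕ)) ∧ s.sum = n} = ∅ := by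
      rw [Set.eq_empty_iff_forall_notMem]
      rintro s ⟨h1, h2, _⟩
      obtain ⟨a, ha⟩ := Multiset.card_pos_iff_exists_mem.1 (by omega : 0 < Multiset.card s)
      exact h2 a ha
    unfold rep at hn
    rw [this, Set.ncard_empty] at hn
    omega
  · obtain ⟨N, hN, hN1⟩ := (hA.and_eventually (eventually_ge_atTop 1)).exists
    rw [Set.empty_inter, Set.ncard_empty, Nat.cast_zero, zero_pow (by omega)] at hN
    have : (1 : ℝ) ≤ N := by exact_mod_cast hN1
    nlinarith

/-- **The product formula of order `h` and its consequences.** -/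
theorem result (h : ℕ) (hh : 1 ≤ h) (A : Set ℕ) :
    -- 1. the inequality
    (∀ P : Finset ℕ, (∀ p ∈ P, p.Prime) → ∀ ρ : ℝ, 0 < ρ → ρ < 1 →
      factor A h P * mean (fun n => (ord A h n : ℝ)) ρ ^ 2 ≤
        ((∏ p ∈ P, p : ℕ) : ℝ) * (1 - ρ) / (1 - ρ ^ (∏ p ∈ P, p)) *
          mean (fun n => (ord A h n : ℝ) ^ 2) ρ) ∧
    -- 2. large values
    (∀ P : Finset ℕ, (∀ p ∈ P, p.Prime) → ∀ l : ℕ, (∀ᶠ n : ℕ in atTop, l ≤ ord A h n) →
      ∃ᶠ n : ℕ in atTop, l * factor A h P ≤ (ord A h n : ℝ)) ∧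
    -- 3. divergence of the series of the local terms
    (BasisOrThick A h → (¬ Summable fun p : Nat.Primes => term A h p) →
      ¬ MeanSquareBounded A h ∧ ∀ K : ℕ, ∃ n, K < rep A h n) ∧
    -- 4. few residue classes modulo many primes
    (BasisOrThick A h → ∀ S : Set ℕ, (∀ p ∈ S, p.Prime) →
      (¬ Summable fun p : S => 1 / ((p : ℕ) : ℝ)) → ∀ C : ℝ, (∀ p ∈ S, 2 * res A p ≤ p) →
      (∀ p ∈ S, (res A p : ℝ) ^ h ≤ C * (p : ℝ) ^ 2) →
      ¬ MeanSquareBounded A h ∧ ∀ K : ℕ, ∃ n, K < rep A h n) := by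
  have key : BasisOrThick A h → (¬ Summable fun p : Nat.Primes => term A h p) →
      ¬ MeanSquareBounded A h ∧ ∀ K : ℕ, ∃ n, K < rep A h n := by
    intro hA hdiv
    have h1 : ¬ MeanSquareBounded A h := Pool.Agent.Q50.ETP.not_meanSq A h hh hA hdiv
    refine ⟨h1, fun K => ?_⟩
    by_contra hcon
    push Not at hcon
    exact h1 (bounded_meanSquare A h K hcon)
  refine ⟨fun P hP ρ h0 h1 => ?_, fun P hP l hl => ?_, key, fun hA S hS hdiv C h1 h2 => ?_⟩
  · exact Pool.Agent.Q50.ETP.main_mean A h hh P hP h0 h1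
  · exact Pool.Agent.Q50.ETP.liminf_version A h hh P hP l hl
  · exact key hA (Pool.Agent.Q50.ETP.not_summable_term A (nonempty_of A h hh hA) h hh S hS hdiv C h1 h2)

end Pool.Agent.Results.MP_d5a1e1_nt.ResidueProductOrderH
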