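import Mathlib
import Pool.Agent.Q146.LV.Fin

/-!
# MP_d5a1e1_nt: local factors in the second moment of a bounded representation function

Let `h ≥ 2`, let `r(n) = rep A h n` be the number of multisets of `h` elements of `A` with sum `n`,
and let `Q` be a finite set of pairwise coprime moduli `q ≥ 2`.  Let `ν q` be the number of residue
classes modulo `q` which contain an element of `A`, let
`G = ∏ (1 + ((q - ν q) / ν q) ^ h / (q - 1) ^ (h - 1))` (product over `q ∈ Q`), and let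
`θ = 1 - 1 / C(h, ⌊h/2⌋)`.

1. If `A` is infinite and `r` is bounded, then the Abel means of `r` and `r ^ 2` satisfy
   `mean r ^ 2 ≥ G (mean r) ^ 2 + θ mean r - o(1)`.
2. If `r(n) ≥ l` for all large `n`, where `l ≥ 1`, then
   `r(n) ≥ (√(G l) + √((G - 1) l + θ)) ^ 2` for infinitely many `n`.
3. If `|A ∩ [1, n]| ≥ c n ^ (1/h)` and `r(n) ≤ g` for all large `n`, where `g ≥ 1`, then
   `G (c Γ(1 + 1/h)) ^ h ≤ h! (g - 1 + 1 / C(h, ⌊h/2⌋))`.

For `Q = ∅` (`G = 1`) part 1 is the starting result `BinomialVariance` and part 3 its growth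
constant; for `h = 2` and primes `q` the starting result `MP_12a1af_nt.ResidueProductFormula` gives
`r(n) ≥ l G` for infinitely many `n` (ordered pairs), in place of the bound of part 2, which is
asymptotically `4 G l`.

Method.  The energy of `F ^ h`, `F = ∑_{a ∈ A} z ^ a`, near the fractions with denominator `∏ q` is at
least `G` times that near `1`; the rest of the circle contributes the diagonal term `θ mean r`: the
windows in the proof of `BinomialVariance` are replaced by windows in progressions modulo `∏ q`.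
-/

set_option autoImplicit false

open Filter Topology

namespace Pool.Agent.Results.MP_d5a1e1_nt.ResidueVariance

/-- `r_{A,h}(n)`: the number of multisets of `h` elements of `A` with sum `n` -/
noncomputable def rep (A : Set ℕ) (h n : ℕ) : ℕ :=
  Set.ncard {s : Multiset ℕ | Multiset.card s = h ∧ (∀ a ∈ s, a ∈ A) ∧ s.sum = n}

/-- the Abel mean `(1 - q) ∑ q^n f(n)` of `f` -/
noncomputable def mean (f : ℕ → ℝ) (q : ℝ) : ℝ := (1 - q) * ∑' n : ℕ, q ^ n * f n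

/-- the number of elements of `A` in `[1, n]` -/
noncomputable def count (A : Set ℕ) (n : ℕ) : ℕ := Set.ncard {a : ℕ | a ∈ A ∧ 1 ≤ a ∧ a ≤ n}

/-- the number of residue classes modulo `q` which contain an element of `A` -/
noncomputable def res (A : Set ℕ) (q : ℕ) : ℕ := ((fun a => a % q) '' A).ncard

/-- the product of the local factors `1 + ((q - ν) / ν)^h / (q - 1)^(h - 1)`, `ν = res A q` -/
noncomputable def factor (A : Set ℕ) (h : ℕ) (Q : Finset ℕ) : ℝ :=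
  ∏ q ∈ Q, (1 + (((q : ℝ) - res A q) / res A q) ^ h / ((q : ℝ) - 1) ^ (h - 1))

/-- `1 - 1 / C(h, ⌊h/2⌋)` -/
noncomputable def diag (h : ℕ) : ℝ := 1 - 1 / (h.choose (h / 2) : ℝ)

lemma split (h : ℕ) : (h - h / 2) + h / 2 = h := by omega

lemma res_le (A : Set ℕ) {q : ℕ} (hq : 0 < q) : res A q ≤ q := by
  unfold res
  have h1 : ((fun a => a % q) '' A) ⊆ ((Finset.range q : Finset ℕ) : Set ℕ) := by
    rintro _ ⟨a, _, rfl⟩
    rw [Finset.mem_coe, Finset.mem_range]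
    exact Nat.mod_lt a hq
  have h2 := Set.ncard_le_ncard h1 (Finset.finite_toSet _)
  rwa [Set.ncard_coe_finset, Finset.card_range] at h2

lemma factor_eq (A : Set ℕ) (h : ℕ) (hh : 2 ≤ h) (Q : Finset ℕ) :
    factor A h Q = ∏ q ∈ Q, Pool.Agent.Q146.LV.fac ((h - h / 2) + h / 2 - 1) q
      (((fun a => a % q) '' A).ncard : ℕ) := by
  unfold factor
  refine Finset.prod_congr rfl fun q _ => ?_
  unfold Pool.Agent.Q146.LV.fac res
  rw [split, Nat.sub_add_cancel (by omega : 1 ≤ h)]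

lemma factor_ge_one (A : Set ℕ) (h : ℕ) (hh : 2 ≤ h) (Q : Finset ℕ) (hQ : ∀ q ∈ Q, 2 ≤ q) :
    1 ≤ factor A h Q := by
  rw [factor_eq A h hh]
  have : ∀ q ∈ Q, (1 : ℝ) ≤ Pool.Agent.Q146.LV.fac ((h - h / 2) + h / 2 - 1) q
      (((fun a => a % q) '' A).ncard : ℕ) := fun q hq =>
    Pool.Agent.Q146.LV.fac_ge_one _ (hQ q hq) (res_le A (by have := hQ q hq; omega))
  calc (1 : ℝ) = ∏ q ∈ Q, 1 := by rw [Finset.prod_const_one]
    _ ≤ _ := Finset.prod_le_prod (fun _ _ => zero_le_one) this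

lemma diag_pos (h : ℕ) (hh : 2 ≤ h) : 0 < diag h := by
  unfold diag
  have h1 : 2 ≤ h.choose (h / 2) := by
    have := Nat.choose_le_middle 1 h
    rw [Nat.choose_one_right] at this
    omega
  have h2 : (2 : ℝ) ≤ (h.choose (h / 2) : ℝ) := by exact_mod_cast h1
  have h3 : 1 / (h.choose (h / 2) : ℝ) ≤ 1 / 2 := one_div_le_one_div_of_le (by norm_num) h2
  linarith

lemma infinite_of_basis (h : ℕ) (A : Set ℕ) (hr : ∀ᶠ n in atTop, 1 ≤ rep A h n) :
    A.Infinite := by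
  intro hfin
  rw [eventually_atTop] at hr
  obtain ⟨n₀, hn₀⟩ := hr
  obtain ⟨M, hM⟩ := hfin.bddAbove
  have h1 := hn₀ (n₀ + h * M + 1) (by omega)
  unfold rep at h1
  have h2 : {s : Multiset ℕ | Multiset.card s = h ∧ (∀ a ∈ s, a ∈ A) ∧ s.sum = n₀ + h * M + 1} = ∅ := by
    rw [Set.eq_empty_iff_forall_notMem]
    rintro s ⟨s1, s2, s3⟩
    have : s.sum ≤ Multiset.card s • M := Multiset.sum_le_card_nsmul s M (fun a ha => hM (s2 a ha))
    rw [smul_eq_mul, s1] at this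
    omega
  rw [h2, Set.ncard_empty] at h1
  omega

lemma law (h : ℕ) (hh : 2 ≤ h) (A : Set ℕ) (Q : Finset ℕ) (hQ : ∀ q ∈ Q, 2 ≤ q)
    (hco : ∀ q ∈ Q, ∀ q' ∈ Q, q ≠ q' → q.Coprime q') (hA : A.Infinite) (K : ℕ)
    (hK : ∀ n, rep A h n ≤ K) (ε : ℝ) (hε : 0 < ε) :
    ∀ᶠ q : ℝ in 𝓝[<] 1, factor A h Q * (mean (fun n => (rep A h n : ℝ)) q) ^ 2 +
      diag h * mean (fun n => (rep A h n : ℝ)) q - ε ≤ mean (fun n => (rep A h n : ℝ) ^ 2) q := by
  have hG := factor_ge_one A h hh Q hQ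
  rw [factor_eq A h hh] at hG ⊢
  have h1 := Pool.Agent.Q146.LV.law A hA (h - h / 2) (h / 2) (by omega) (by omega) K (by
    intro n
    rw [split]
    exact hK n) (∏ q ∈ Q, q) (Finset.prod_pos fun q hq => by have := hQ q hq; omega) _ hG
    (fun T x => Pool.Agent.Q146.LV.local_energy A hA.nonempty (h - h / 2) (h / 2) (by omega) Q hQ
      hco T x) ε hε
  have e : Pool.Agent.TH854.BV.M1 A ((h - h / 2) + h / 2) = mean (fun n => (rep A h n : ℝ)) := by
    rw [split]; rfl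
  have e2 : Pool.Agent.TH854.BV.M2 A ((h - h / 2) + h / 2) =
      mean (fun n => (rep A h n : ℝ) ^ 2) := by
    rw [split]; rfl
  rw [e, e2] at h1
  have e3 : ((h - h / 2 + h / 2).choose (h / 2) : ℝ) = (h.choose (h / 2) : ℝ) := by rw [split]
  rw [e3] at h1
  exact h1

lemma two_bounds (h : ℕ) (hh : 2 ≤ h) (A : Set ℕ) (Q : Finset ℕ) (hQ : ∀ q ∈ Q, 2 ≤ q)
    (hco : ∀ q ∈ Q, ∀ q' ∈ Q, q ≠ q' → q.Coprime q') (l g : ℕ) (hl : 1 ≤ l)
    (hg : ∀ᶠ n in atTop, l ≤ rep A h n ∧ rep A h n ≤ g) :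
    2 * √(factor A h Q * l * g) ≤ l + g - diag h := by
  have hA := infinite_of_basis h A (hg.mono fun n hn => hl.trans hn.1)
  obtain ⟨n₀, hn₀⟩ := eventually_atTop.1 hg
  have hG := factor_ge_one A h hh Q hQ
  rw [factor_eq A h hh] at hG ⊢
  have h1 := Pool.Agent.Q146.LV.two_bounds A hA (h - h / 2) (h / 2) (by omega) (by omega) l g n₀ hl
    (by
      intro n hn
      rw [split]
      exact hn₀ n hn) (∏ q ∈ Q, q) (Finset.prod_pos fun q hq => by have := hQ q hq; omega) _ hG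
    (fun T x => Pool.Agent.Q146.LV.local_energy A hA.nonempty (h - h / 2) (h / 2) (by omega) Q hQ
      hco T x)
  have e3 : ((h - h / 2 + h / 2).choose (h / 2) : ℝ) = (h.choose (h / 2) : ℝ) := by rw [split]
  rw [e3] at h1
  exact h1

lemma basis (h : ℕ) (hh : 2 ≤ h) (A : Set ℕ) (Q : Finset ℕ) (hQ : ∀ q ∈ Q, 2 ≤ q)
    (hco : ∀ q ∈ Q, ∀ q' ∈ Q, q ≠ q' → q.Coprime q') (l : ℕ) (hl : 1 ≤ l)
    (hr : ∀ᶠ n in atTop, l ≤ rep A h n) :
    ∃ᶠ n : ℕ in atTop, (√(factor A h Q * l) + √((factor A h Q - 1) * l + diag h)) ^ 2 ≤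
      (rep A h n : ℝ) := by
  have hG := factor_ge_one A h hh Q hQ
  have hd := diag_pos h hh
  set G := factor A h Q with hGdef
  set B := (√(G * l) + √((G - 1) * l + diag h)) ^ 2 with hB
  have hl' : (1 : ℝ) ≤ l := by exact_mod_cast hl
  by_contra hcon
  rw [not_frequently] at hcon
  have hBpos : 0 < B := by
    have : 0 < √(G * l) := Real.sqrt_pos.2 (by positivity)
    have h2 := Real.sqrt_nonneg ((G - 1) * l + diag h)
    rw [hB]
    positivity
  set k : ℕ := ⌈B⌉₊ - 1 with hk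
  have hc1 : 1 ≤ ⌈B⌉₊ := Nat.one_le_ceil_iff.2 hBpos
  have hkB : (k : ℝ) < B := by
    have h1 : k < ⌈B⌉₊ := by omega
    exact Nat.lt_ceil.1 h1
  have hlk : ∀ᶠ n : ℕ in atTop, l ≤ rep A h n ∧ rep A h n ≤ k := by
    filter_upwards [hr, hcon] with n h1 h2
    refine ⟨h1, ?_⟩
    rw [not_le] at h2
    have h3 : rep A h n < ⌈B⌉₊ := Nat.lt_ceil.2 h2
    omega
  have hlk' : l ≤ k := by
    obtain ⟨n, hn⟩ := hlk.exists
    exact hn.1.trans hn.2
  have h1 := two_bounds h hh A Q hQ hco l k hl hlk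
  rw [← hGdef] at h1
  -- in terms of square roots
  set X := √(k : ℝ) with hX
  set Y := √(l : ℝ) with hY
  set S := √G with hS
  set U := √((G - 1) * l + diag h) with hU
  have hX2 : X ^ 2 = k := Real.sq_sqrt (Nat.cast_nonneg _)
  have hY2 : Y ^ 2 = l := Real.sq_sqrt (Nat.cast_nonneg _)
  have hS2 : S ^ 2 = G := Real.sq_sqrt (by linarith)
  have hU2 : U ^ 2 = (G - 1) * l + diag h :=
    Real.sq_sqrt (add_nonneg (mul_nonneg (by linarith) (Nat.cast_nonneg _)) hd.le)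
  have hX0 : 0 ≤ X := Real.sqrt_nonneg _
  have hY0 : 0 ≤ Y := Real.sqrt_nonneg _
  have hS0 : 0 ≤ S := Real.sqrt_nonneg _
  have hU0 : 0 ≤ U := Real.sqrt_nonneg _
  have hS1 : 1 ≤ S := Real.one_le_sqrt.2 hG
  have hXY : Y ≤ X := Real.sqrt_le_sqrt (by exact_mod_cast hlk')
  have e1 : √(G * l * k) = S * Y * X := by
    rw [Real.sqrt_mul (by positivity), Real.sqrt_mul (by linarith)]
  have e2 : √(G * l) = S * Y := Real.sqrt_mul (by linarith) _
  rw [e1, ← hX2, ← hY2] at h1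
  have h2 : U ^ 2 ≤ (X - S * Y) ^ 2 := by
    rw [hU2, ← hY2, ← hS2]
    nlinarith
  have h3 : X < S * Y + U := by
    have : X ^ 2 < (S * Y + U) ^ 2 := by
      rw [hX2, ← e2]
      exact hkB
    exact lt_of_pow_lt_pow_left₀ 2 (by positivity) this
  have h4 : U ≤ |X - S * Y| := by
    rw [← abs_of_nonneg hU0]
    exact sq_le_sq.1 h2
  rcases le_abs.1 h4 with h5 | h5
  · linarith
  · have h6 : U ≤ (S - 1) * Y := by nlinarith
    have h7 : U ^ 2 ≤ ((S - 1) * Y) ^ 2 := pow_le_pow_left₀ hU0 h6 2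
    rw [hU2, ← hY2, ← hS2] at h7
    nlinarith [mul_nonneg (by linarith : 0 ≤ S - 1) (sq_nonneg Y)]

lemma growth (h : ℕ) (hh : 2 ≤ h) (A : Set ℕ) (Q : Finset ℕ) (hQ : ∀ q ∈ Q, 2 ≤ q)
    (hco : ∀ q ∈ Q, ∀ q' ∈ Q, q ≠ q' → q.Coprime q') (hA : A.Infinite) (g : ℕ) (hg1 : 1 ≤ g)
    (hg : ∀ᶠ n in atTop, rep A h n ≤ g) (c : ℝ) (hc : 0 ≤ c)
    (hAc : ∀ᶠ n : ℕ in atTop, c * (n : ℝ) ^ ((1 : ℝ) / h) ≤ (count A n : ℝ)) :
    factor A h Q * (c * Real.Gamma (1 + 1 / h)) ^ h ≤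
      (h.factorial : ℝ) * (g - 1 + 1 / (h.choose (h / 2) : ℝ)) := by
  have hG := factor_ge_one A h hh Q hQ
  rw [factor_eq A h hh] at hG ⊢
  set G := ∏ q ∈ Q, Pool.Agent.Q146.LV.fac ((h - h / 2) + h / 2 - 1) q
      (((fun a => a % q) '' A).ncard : ℕ) with hGdef
  have hG0 : 0 < G := by linarith
  rw [eventually_atTop] at hg hAc
  obtain ⟨n₀, hn₀⟩ := hg
  obtain ⟨n₁, hn₁⟩ := hAc
  obtain ⟨K0, hK⟩ := Pool.Agent.TH854.BV.bounded_of_eventually A h g n₀ hn₀
  have e3 : ((h - h / 2 + h / 2).choose (h / 2) : ℝ) = (h.choose (h / 2) : ℝ) := by rw [split]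
  have h1 := Pool.Agent.Q146.LV.growth_of_mean A h (by omega) K0 hK
    ((g - 1 + 1 / (h.choose (h / 2) : ℝ)) / G) (by
      intro ε hε
      have h2 := Pool.Agent.Q146.LV.mean_le A hA (h - h / 2) (h / 2) (by omega) (by omega) g n₀ hg1
        (by
          intro n hn
          rw [split]
          exact hn₀ n hn) (∏ q ∈ Q, q) (Finset.prod_pos fun q hq => by have := hQ q hq; omega) G hG
        (fun T x => Pool.Agent.Q146.LV.local_energy A hA.nonempty (h - h / 2) (h / 2) (by omega) Q hQ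
          hco T x) (G * ε) (by positivity)
      rw [e3, split] at h2
      filter_upwards [h2] with q hq
      rw [← sub_le_iff_le_add, le_div_iff₀ hG0]
      linarith) c hc n₁ (by
    intro n hn
    rw [← one_div]
    refine (hn₁ n hn).trans ?_
    have : count A n ≤ (Pool.Agent.TH854.BV.FT A n).card := by
      unfold count
      rw [← Set.ncard_coe_finset]
      apply Set.ncard_le_ncard _ (Finset.finite_toSet _)
      rintro a ⟨a1, a2, a3⟩
      exact Pool.Agent.TH854.BV.mem_FT.2 ⟨a1, a3⟩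
    exact_mod_cast this)
  rw [← one_div, add_comm (1 / (h : ℝ))] at h1
  rw [← mul_div_assoc, le_div_iff₀ hG0] at h1
  rw [mul_comm]
  exact h1

/-- **Local factors in the second moment.**  Let `h ≥ 2`, let `Q` be a finite set of pairwise coprime
moduli `q ≥ 2`, `G = factor A h Q` and `θ = diag h = 1 - 1 / C(h, ⌊h/2⌋)`.
1. If `A` is infinite and `r = rep A h` is bounded then, for every `ε > 0` and all `q < 1` close to
`1`, the Abel means at `q` satisfy `mean r^2 ≥ G (mean r)^2 + θ mean r - ε`.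
2. If `r(n) ≥ l` for all large `n`, `l ≥ 1`, then `r(n) ≥ (√(G l) + √((G - 1) l + θ))^2` for
infinitely many `n`.
3. If `A` is infinite, `r(n) ≤ g` and `A(n) ≥ c n^(1/h)` for all large `n` (`g ≥ 1`, `c ≥ 0`), then
`G (c Γ(1 + 1/h))^h ≤ h! (g - 1 + 1 / C(h, ⌊h/2⌋))`. -/
theorem result (h : ℕ) (hh : 2 ≤ h) (A : Set ℕ) (Q : Finset ℕ) (hQ : ∀ q ∈ Q, 2 ≤ q)
    (hco : ∀ q ∈ Q, ∀ q' ∈ Q, q ≠ q' → q.Coprime q') :
    (A.Infinite → (∃ K, ∀ n, rep A h n ≤ K) → ∀ ε : ℝ, 0 < ε → ∀ᶠ q : ℝ in 𝓝[<] 1,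
      factor A h Q * (mean (fun n => (rep A h n : ℝ)) q) ^ 2 +
        diag h * mean (fun n => (rep A h n : ℝ)) q - ε ≤
          mean (fun n => (rep A h n : ℝ) ^ 2) q) ∧
    (∀ l : ℕ, 1 ≤ l → (∀ᶠ n in atTop, l ≤ rep A h n) → ∃ᶠ n : ℕ in atTop,
      (√(factor A h Q * l) + √((factor A h Q - 1) * l + diag h)) ^ 2 ≤ (rep A h n : ℝ)) ∧
    (A.Infinite → ∀ g : ℕ, 1 ≤ g → (∀ᶠ n in atTop, rep A h n ≤ g) → ∀ c : ℝ, 0 ≤ c →
      (∀ᶠ n : ℕ in atTop, c * (n : ℝ) ^ ((1 : ℝ) / h) ≤ (count A n : ℝ)) →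
      factor A h Q * (c * Real.Gamma (1 + 1 / h)) ^ h ≤
        (h.factorial : ℝ) * (g - 1 + 1 / (h.choose (h / 2) : ℝ))) :=
  ⟨fun hA ⟨K, hK⟩ ε hε => law h hh A Q hQ hco hA K hK ε hε,
    fun l hl hr => basis h hh A Q hQ hco l hl hr,
    fun hA g hg1 hg c hc hAc => growth h hh A Q hQ hco hA g hg1 hg c hc hAc⟩

end Pool.Agent.Results.MP_d5a1e1_nt.ResidueVariance
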